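import Mathlib
import Pool.Agent.H529R3.Delta

set_option autoImplicit false

/-!
# Monochromatic triangles in almost regressive colourings of branches

`Branch κ` is the set of functions from the ordinals below the cardinal `κ` to `Bool`, and
`Delta x y` is the least ordinal at which `x` and `y` differ.
-/

open Cardinal Set

namespace Pool.Agent.Results.MP_9a42a6_lc.Triangles

open Pool.Agent.H529R3

universe u

/-- `c` is an almost regressive colouring of the pairs of branches of length `κ`, with colours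
below `κ`. -/
def AlmostRegressive (κ : Cardinal.{u}) (c : Branch κ → Branch κ → Ordinal.{u}) : Prop :=
  (∀ x y, c x y = c y x) ∧ (∀ x y, x ≠ y → c x y < κ.ord) ∧
    ∃ μ : Ordinal.{u}, μ < κ.ord ∧ ∀ x y, x ≠ y → c x y < max (Delta x y) μ

theorem mk_branch (κ : Cardinal.{u}) :
    #(Branch κ) = Cardinal.lift.{u + 1} ((2 : Cardinal.{u}) ^ κ) := by
  rw [Branch, Cardinal.mk_arrow, Cardinal.mk_Iio_ordinal, Cardinal.card_ord, Cardinal.mk_bool]
  simp

theorem infinite_of_pow {κ : Cardinal.{u}} (hκ : ℵ₀ < κ)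
    (hpow : ∀ μ : Cardinal.{u}, μ < κ → (2 : Cardinal.{u}) ^ μ < (2 : Cardinal.{u}) ^ κ)
    (c : Branch κ → Branch κ → Ordinal.{u}) (hc : AlmostRegressive κ c) :
    ∃ Y : Set (Branch κ), Y.Infinite ∧ ∃ ν : Ordinal.{u},
      ∀ x ∈ Y, ∀ y ∈ Y, x ≠ y → c x y = ν := by
  classical
  obtain ⟨hsymm, -, μ, hμ, hreg⟩ := hc
  set l : Cardinal.{u} := max μ.card ℵ₀ with hl
  have hl1 : ℵ₀ ≤ l := le_max_right _ _
  have hlκ : l < κ := max_lt (Cardinal.lt_ord.mp hμ) hκ
  have hpos : (0 : Ordinal.{u}) < κ.ord :=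
    (zero_le).trans_lt hμ
  rcases le_or_gt μ l.ord with hle | hgt
  · obtain ⟨Y, hY, -, ν, hν⟩ := main hl1 (hpow l hlκ) hpos c hsymm
      (fun x y hxy _ _ => (hreg x y hxy).trans_le (max_le_max le_rfl hle))
    exact ⟨Y, hY, ν, hν⟩
  · have hcard : #(Iio μ) ≤ #(Iio l.ord) := by
      rw [Cardinal.mk_Iio_ordinal, Cardinal.mk_Iio_ordinal, Cardinal.card_ord, Cardinal.lift_le]
      exact le_max_left _ _
    obtain ⟨φ⟩ := hcard
    let c' : Branch κ → Branch κ → Ordinal.{u} := fun x y =>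
      if h : c x y < μ then (φ ⟨c x y, h⟩ : Iio l.ord).1 else c x y
    have h1 : ∀ x y, (h : c x y < μ) → c' x y = (φ ⟨c x y, h⟩ : Iio l.ord).1 :=
      fun x y h => dif_pos h
    have h2 : ∀ x y, ¬ c x y < μ → c' x y = c x y := fun x y h => dif_neg h
    have hs : ∀ x y, c' x y = c' y x := by
      intro x y
      simp only [c', hsymm x y]
    obtain ⟨Y, hY, -, ν, hν⟩ := main hl1 (hpow l hlκ) hpos c' hs (fun x y hxy _ _ => by
      by_cases h : c x y < μ
      · rw [h1 x y h]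
        exact lt_max_of_lt_right (φ ⟨c x y, h⟩).2
      · rw [h2 x y h]
        rcases lt_max_iff.mp (hreg x y hxy) with h3 | h3
        · exact lt_max_of_lt_left h3
        · exact absurd h3 h)
    by_cases hν1 : ν < μ
    · have h3 : ∀ x ∈ Y, ∀ y ∈ Y, x ≠ y → c x y < μ := by
        intro x hx y hy hxy
        by_contra hcon
        have h4 := hν x hx y hy hxy
        rw [h2 x y hcon] at h4
        exact hcon (h4 ▸ hν1)
      obtain ⟨a, ha, b, hb, hab⟩ := hY.nontrivial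
      refine ⟨Y, hY, c a b, fun x hx y hy hxy => ?_⟩
      have e1 := hν x hx y hy hxy
      have e2 := hν a ha b hb hab
      rw [h1 x y (h3 x hx y hy hxy)] at e1
      rw [h1 a b (h3 a ha b hb hab)] at e2
      have e3 := φ.injective (Subtype.ext (e1.trans e2.symm))
      exact congrArg Subtype.val e3
    · refine ⟨Y, hY, ν, fun x hx y hy hxy => ?_⟩
      have e1 := hν x hx y hy hxy
      by_cases h : c x y < μ
      · exfalso
        rw [h1 x y h] at e1
        exact hν1 (e1 ▸ lt_trans (φ ⟨c x y, h⟩).2 hgt)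
      · rwa [h2 x y h] at e1

theorem pow_of_triple {κ : Cardinal.{u}}
    (h : ∀ c : Branch κ → Branch κ → Ordinal.{u}, AlmostRegressive κ c →
      ∃ x y z : Branch κ, x ≠ y ∧ x ≠ z ∧ y ≠ z ∧ c x y = c x z ∧ c x y = c y z)
    (μ : Cardinal.{u}) (hμ : μ < κ) : (2 : Cardinal.{u}) ^ μ < (2 : Cardinal.{u}) ^ κ := by
  by_contra hcon
  push Not at hcon
  have hcard : #(Branch κ) ≤ #(Branch μ) := by
    rw [mk_branch, mk_branch, Cardinal.lift_le]
    exact hcon
  obtain ⟨e⟩ := hcard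
  have hμo : μ.ord < κ.ord := Cardinal.ord_lt_ord.mpr hμ
  have hlt : ∀ x y : Branch κ, x ≠ y → Delta (e x) (e y) < μ.ord := by
    intro x y hxy
    exact (Delta_spec (fun h' => hxy (e.injective h'))).1
  obtain ⟨x, y, z, hxy, hxz, hyz, h1, h2⟩ := h (fun x y => Delta (e x) (e y))
    ⟨fun x y => Delta_symm _ _, fun x y hxy => (hlt x y hxy).trans hμo,
      μ.ord, hμo, fun x y hxy => lt_max_of_lt_right (hlt x y hxy)⟩
  have d1 := Delta_spec (fun h' => hxy (e.injective h'))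
  have d2 := Delta_spec (fun h' => hxz (e.injective h'))
  have d3 := Delta_spec (fun h' => hyz (e.injective h'))
  rw [← h1] at d2
  rw [← h2] at d3
  obtain ⟨i1, n1⟩ := d1
  obtain ⟨i2, n2⟩ := d2
  obtain ⟨i3, n3⟩ := d3
  revert n1 n2 n3
  cases e x ⟨Delta (e x) (e y), i1⟩ <;> cases e y ⟨Delta (e x) (e y), i1⟩ <;>
    cases e z ⟨Delta (e x) (e y), i1⟩ <;> simp

theorem result (κ : Cardinal.{u}) (hκ : ℵ₀ < κ) : List.TFAE [
    ∀ μ : Cardinal.{u}, μ < κ → (2 : Cardinal.{u}) ^ μ < (2 : Cardinal.{u}) ^ κ,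
    ∀ c : Branch κ → Branch κ → Ordinal.{u}, AlmostRegressive κ c →
      ∃ x y z : Branch κ, x ≠ y ∧ x ≠ z ∧ y ≠ z ∧ c x y = c x z ∧ c x y = c y z,
    ∀ c : Branch κ → Branch κ → Ordinal.{u}, AlmostRegressive κ c →
      ∃ Y : Set (Branch κ), Y.Infinite ∧ ∃ ν : Ordinal.{u},
        ∀ x ∈ Y, ∀ y ∈ Y, x ≠ y → c x y = ν] := by
  classical
  tfae_have 1 → 3 := fun h c hc => infinite_of_pow hκ h c hc
  tfae_have 3 → 2 := by
    intro h c hc
    obtain ⟨Y, hY, ν, hν⟩ := h c hc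
    obtain ⟨t, ht, h3⟩ := hY.exists_subset_card_eq 3
    obtain ⟨x, y, z, hxy, hxz, hyz, rfl⟩ := Finset.card_eq_three.mp h3
    have hx : x ∈ Y := ht (by simp)
    have hy : y ∈ Y := ht (by simp)
    have hz : z ∈ Y := ht (by simp)
    exact ⟨x, y, z, hxy, hxz, hyz, by rw [hν x hx y hy hxy, hν x hx z hz hxz],
      by rw [hν x hx y hy hxy, hν y hy z hz hyz]⟩
  tfae_have 2 → 1 := fun h μ hμ => pow_of_triple h μ hμ
  tfae_finish

end Pool.Agent.Results.MP_9a42a6_lc.Triangles
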